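import Pool.Agent.W993.MC.Stm

/-!
# The generating function (project MC)
-/

set_option autoImplicit false

open Filter Topology MeasureTheory

namespace Pool.Agent.W196.MC

open Pool.Agent.W993.MC

/-- the functions -/
noncomputable def G (k : ℕ) (x : ℂ) : ℂ := (-Complex.log (1 - x)) ^ (k + 1) / ((k + 1).factorial : ℂ)

theorem slit {x : ℂ} (hx : ‖x‖ < 1) : 1 - x ∈ Complex.slitPlane := by
  have := Complex.mem_slitPlane_of_norm_lt_one (z := -x) (by rwa [norm_neg])
  rwa [← sub_eq_add_neg] at this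

theorem ne1 {x : ℂ} (hx : ‖x‖ < 1) : 1 - x ≠ 0 := Complex.slitPlane_ne_zero (slit hx)

theorem cauchy (k : ℕ) (h : ∀ y : ℂ, ‖y‖ < 1 →
    HasSum (fun l : ℕ => y ^ (l + 1) / ((l : ℂ) + 1) * S (List.replicate k (1, 1)) l) (G k y))
    (y : ℂ) (hy : ‖y‖ < 1) :
    HasSum (fun n : ℕ => y ^ (n + 1) * S (List.replicate (k + 1) (1, 1)) (n + 1))
      (G k y * (1 - y)⁻¹) := by
  have hf := h y hy
  have hg := hasSum_geometric_of_norm_lt_one hy
  have h1 := hasSum_sum_range_mul_of_summable_norm hf.summable.norm hg.summable.norm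
  rw [hf.tsum_eq, hg.tsum_eq] at h1
  refine h1.congr_fun ?_ |> id
  intro n
  have e : S (List.replicate (k + 1) (1, 1)) (n + 1) =
      ∑ l ∈ Finset.range (n + 1), (1 : ℂ) ^ (l + 1) / ((l : ℂ) + 1) ^ 1 *
        S (List.replicate k (1, 1)) l := rfl
  rw [e, Finset.mul_sum]
  refine Finset.sum_congr rfl fun i hi => ?_
  have hi' : i ≤ n := Nat.lt_succ_iff.1 (Finset.mem_range.1 hi)
  have e2 : y ^ (n + 1) = y ^ (i + 1) * y ^ (n - i) := by
    rw [← pow_add]; congr 1; omega
  rw [e2, one_pow, pow_one]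
  ring

theorem step (k : ℕ) (h : ∀ y : ℂ, ‖y‖ < 1 →
    HasSum (fun l : ℕ => y ^ (l + 1) / ((l : ℂ) + 1) * S (List.replicate k (1, 1)) l) (G k y))
    (x : ℂ) (hx : ‖x‖ < 1) :
    HasSum (fun l : ℕ => x ^ (l + 1) / ((l : ℂ) + 1) * S (List.replicate (k + 1) (1, 1)) l)
      (G (k + 1) x) := by
  set b : ℕ → ℂ := fun n => S (List.replicate (k + 1) (1, 1)) (n + 1) with hb
  have hc := cauchy k h
  have htx : ∀ t : ℝ, t ∈ Set.uIcc (0 : ℝ) 1 → ‖(t : ℂ) * x‖ < 1 := by
    intro t ht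
    rw [Set.uIcc_of_le zero_le_one] at ht
    rw [norm_mul, Complex.norm_real, Real.norm_eq_abs, abs_of_nonneg ht.1]
    exact (mul_le_of_le_one_left (norm_nonneg _) ht.2).trans_lt hx
  have hlog : ∀ t : ℝ, t ∈ Set.uIcc (0 : ℝ) 1 →
      HasDerivAt (fun t : ℝ => -Complex.log (1 - (t : ℂ) * x)) (x * (1 - (t : ℂ) * x)⁻¹) t := by
    intro t ht
    have h1 : HasDerivAt (fun t : ℝ => (1 : ℂ) - (t : ℂ) * x) (-x) t := by
      have h2 : HasDerivAt (fun t : ℝ => (t : ℂ)) 1 t := Complex.ofRealCLM.hasDerivAt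
      have h3 := (h2.mul_const x).const_sub 1
      rwa [one_mul] at h3
    have h4 := (h1.clog_real (slit (htx t ht))).neg
    exact h4.congr_deriv (by rw [neg_div, neg_neg, div_eq_mul_inv])
  have hder : ∀ t : ℝ, t ∈ Set.uIcc (0 : ℝ) 1 →
      HasDerivAt (fun t : ℝ => G (k + 1) ((t : ℂ) * x))
        (x * (G k ((t : ℂ) * x) * (1 - (t : ℂ) * x)⁻¹)) t := by
    intro t ht
    have h1 := ((hlog t ht).pow (k + 2)).div_const (((k + 2).factorial : ℕ) : ℂ)
    have e1 : (fun t : ℝ => G (k + 1) ((t : ℂ) * x)) =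
        fun t : ℝ => (-Complex.log (1 - (t : ℂ) * x)) ^ (k + 2) / (((k + 2).factorial : ℕ) : ℂ) := rfl
    rw [e1]
    refine h1.congr_deriv ?_
    have hfac : (((k + 2).factorial : ℕ) : ℂ) = ((k : ℂ) + 2) * ((k + 1).factorial : ℂ) := by
      rw [Nat.factorial_succ]; push_cast; ring
    have hk2 : (k : ℂ) + 2 ≠ 0 := by
      have : ((k + 2 : ℕ) : ℂ) ≠ 0 := by exact_mod_cast Nat.succ_ne_zero (k + 1)
      push_cast at this
      exact this
    have hf0 : ((k + 1).factorial : ℂ) ≠ 0 := by exact_mod_cast (k + 1).factorial_ne_zero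
    rw [hfac]
    unfold G
    push_cast
    field_simp
  have hcont : ContinuousOn (fun t : ℝ => x * (G k ((t : ℂ) * x) * (1 - (t : ℂ) * x)⁻¹))
      (Set.uIcc 0 1) := by
    intro t ht
    have h1 := (hlog t ht).continuousAt.continuousWithinAt (s := Set.uIcc (0 : ℝ) 1)
    have h2 : ContinuousWithinAt (fun t : ℝ => (1 : ℂ) - (t : ℂ) * x) (Set.uIcc 0 1) t := by
      fun_prop
    unfold G
    exact continuousWithinAt_const.mul (((h1.pow _).div_const _).mul (h2.inv₀ (ne1 (htx t ht))))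
  have hI := intervalIntegral.integral_eq_sub_of_hasDerivAt hder hcont.intervalIntegrable
  have hG0 : G (k + 1) (((0 : ℝ) : ℂ) * x) = 0 := by
    unfold G
    simp
  rw [hG0, Complex.ofReal_one, one_mul, sub_zero] at hI
  have hsum := (hc x hx).summable.norm
  have hD := intervalIntegral.hasSum_integral_of_dominated_convergence (μ := volume) (a := 0)
    (b := 1) (F := fun (n : ℕ) (t : ℝ) => x * (((t : ℂ) * x) ^ (n + 1) * b n))
    (f := fun t : ℝ => x * (G k ((t : ℂ) * x) * (1 - (t : ℂ) * x)⁻¹))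
    (fun n _ => ‖x‖ * ‖x ^ (n + 1) * b n‖)
    (fun n => (by fun_prop : Continuous fun t : ℝ => x * (((t : ℂ) * x) ^ (n + 1) * b n)).aestronglyMeasurable)
    (fun n => Filter.Eventually.of_forall fun t ht => by
      rw [Set.uIoc_of_le zero_le_one] at ht
      simp only [norm_mul, norm_pow, Complex.norm_real, Real.norm_eq_abs, abs_of_pos ht.1]
      have h1 : (t * ‖x‖) ^ (n + 1) ≤ ‖x‖ ^ (n + 1) :=
        pow_le_pow_left₀ (mul_nonneg ht.1.le (norm_nonneg _))
          (mul_le_of_le_one_left (norm_nonneg _) ht.2) _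
      gcongr)
    (Filter.Eventually.of_forall fun t _ => hsum.mul_left _)
    (by simp)
    (Filter.Eventually.of_forall fun t ht => (hc _ (htx t (Set.uIoc_subset_uIcc ht))).mul_left _)
  rw [hI] at hD
  have hterm : ∀ n : ℕ, (∫ t in (0 : ℝ)..1, x * (((t : ℂ) * x) ^ (n + 1) * b n)) =
      x ^ (n + 1 + 1) / (((n + 1 : ℕ) : ℂ) + 1) * b n := by
    intro n
    have e1 : (fun t : ℝ => x * (((t : ℂ) * x) ^ (n + 1) * b n)) =
        fun t : ℝ => (x ^ (n + 1 + 1) * b n) * (((t ^ (n + 1) : ℝ)) : ℂ) := by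
      funext t
      push_cast
      ring
    rw [e1, intervalIntegral.integral_const_mul, intervalIntegral.integral_ofReal, integral_pow]
    push_cast
    have : ((n : ℂ) + 1 + 1) ≠ 0 := by
      have : ((n + 2 : ℕ) : ℂ) ≠ 0 := by exact_mod_cast Nat.succ_ne_zero (n + 1)
      push_cast at this
      rwa [show (n : ℂ) + 1 + 1 = n + 2 by ring]
    simp
    field_simp
  simp only [hterm] at hD
  have h2 := (hasSum_nat_add_iff (f := fun l : ℕ => x ^ (l + 1) / ((l : ℂ) + 1) *
    S (List.replicate (k + 1) (1, 1)) l) 1).1 hD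
  rw [Finset.sum_range_one] at h2
  have e3 : S (List.replicate (k + 1) (1, 1)) 0 = 0 := rfl
  rw [e3, mul_zero, add_zero] at h2
  exact h2

theorem gen : S_GEN := by
  intro k
  induction k with
  | zero =>
    intro x hx
    have h1 := Complex.hasSum_taylorSeries_neg_log hx
    have h2 := (hasSum_nat_add_iff' (f := fun n : ℕ => x ^ n / (n : ℂ)) 1).2 h1
    rw [Finset.sum_range_one] at h2
    simp only [Nat.cast_zero, div_zero, sub_zero] at h2
    have e : S (List.replicate 0 (1, 1)) = fun _ => 1 := rfl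
    rw [e]
    simp only [mul_one, zero_add, pow_one, Nat.factorial_one, Nat.cast_one, div_one]
    refine h2.congr_fun ?_ |> id
    intro n
    push_cast
    rfl
  | succ k ih => exact fun x hx => step k ih x hx

end Pool.Agent.W196.MC
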